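import Mathlib
import Pool.Agent.TH161.LW.Cells
import Pool.Agent.TH161.LW.Info3

/-!
# Large tournaments with a margin: the perceptron argument

A family of `N` vectors of length at most `√D` whose pairwise values of an alternating form of norm
one are at least `δ` in absolute value satisfies `log N ≤ C D² / δ²`.  Every tournament has a vertex
with many in- and out-neighbours; iterating this one finds a path of pivots of length `log₅ N`, at
each step one is free to choose the sign of the new vector, so that the signed sum of the pivot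
vectors stays short, while its value at the last vertex grows linearly.
-/

set_option autoImplicit false

open Finset
open scoped Classical

namespace Pool.Agent.J4H56.KS

open Pool.Agent.TH161.LW

section tournament

variable {β : Type*}

/-- if all degrees (in one direction) in a finite tournament are less than `k`, it has less than
`2 k` vertices -/
lemma tour_card (r : β → β → Prop) (A : Finset β)
    (hr : ∀ x ∈ A, ∀ y ∈ A, x ≠ y → (r x y ↔ ¬ r y x))
    (k : ℕ) (hk : 1 ≤ k) (h : ∀ p ∈ A, (A.filter fun x => x ≠ p ∧ r x p).card < k) :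
    A.card < 2 * k := by
  -- number of pairs in both orientations
  have h1 : ∑ p ∈ A, (A.filter fun x => x ≠ p ∧ r x p).card =
      ∑ p ∈ A, (A.filter fun x => x ≠ p ∧ r p x).card := by
    simp only [Finset.card_filter]
    rw [Finset.sum_comm]
    refine Finset.sum_congr rfl fun x _ => Finset.sum_congr rfl fun y _ => ?_
    congr 1
    simp only [ne_comm]
  have h2 : ∀ p ∈ A, (A.filter fun x => x ≠ p ∧ r x p).card +
      (A.filter fun x => x ≠ p ∧ r p x).card = A.card - 1 := by
    intro p hp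
    rw [← Finset.card_union_of_disjoint, ← Finset.card_erase_of_mem hp]
    · congr 1
      ext x
      simp only [mem_union, mem_filter, mem_erase]
      constructor
      · rintro (⟨a, b, _⟩ | ⟨a, b, _⟩) <;> exact ⟨b, a⟩
      · rintro ⟨a, b⟩
        by_cases h3 : r x p
        · exact Or.inl ⟨b, a, h3⟩
        · refine Or.inr ⟨b, a, ?_⟩
          by_contra h4
          exact h3 ((hr x b p hp a).mpr h4)
    · rw [Finset.disjoint_left]
      intro x hx hx'
      simp only [mem_filter] at hx hx'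
      exact ((hr x hx.1 p hp hx.2.1).mp hx.2.2) hx'.2.2
  have h3 : 2 * ∑ p ∈ A, (A.filter fun x => x ≠ p ∧ r x p).card = A.card * (A.card - 1) := by
    rw [two_mul]
    nth_rewrite 2 [h1]
    rw [← Finset.sum_add_distrib, Finset.sum_congr rfl h2, Finset.sum_const, smul_eq_mul]
  have h4 : ∑ p ∈ A, (A.filter fun x => x ≠ p ∧ r x p).card ≤ A.card * (k - 1) := by
    refine (Finset.sum_le_card_nsmul _ _ (k - 1) fun p hp => ?_)
    have := h p hp
    omega
  rcases Nat.eq_zero_or_pos A.card with h5 | h5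
  · omega
  · have h6 : A.card * (A.card - 1) ≤ A.card * (2 * (k - 1)) := by
      rw [← h3]
      calc 2 * ∑ p ∈ A, (A.filter fun x => x ≠ p ∧ r x p).card ≤ 2 * (A.card * (k - 1)) :=
            Nat.mul_le_mul_left _ h4
        _ = _ := by ring
    have h7 := Nat.le_of_mul_le_mul_left h6 h5
    omega

/-- a vertex with many in- and out-neighbours -/
lemma exists_pivot (r : β → β → Prop) (S : Finset β)
    (hr : ∀ x ∈ S, ∀ y ∈ S, x ≠ y → (r x y ↔ ¬ r y x))
    (k : ℕ) (hk : 1 ≤ k) (h : 4 * k ≤ S.card + 1) :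
    ∃ p ∈ S, k ≤ (S.filter fun x => x ≠ p ∧ r x p).card ∧
      k ≤ (S.filter fun x => x ≠ p ∧ r p x).card := by
  by_contra hcon
  push Not at hcon
  obtain ⟨A, hA⟩ : ∃ A, A = S.filter fun p => (S.filter fun x => x ≠ p ∧ r x p).card < k := ⟨_, rfl⟩
  obtain ⟨B, hB⟩ : ∃ B, B = S.filter fun p => (S.filter fun x => x ≠ p ∧ r p x).card < k := ⟨_, rfl⟩
  have hAS : A ⊆ S := by rw [hA]; exact Finset.filter_subset _ _
  have hBS : B ⊆ S := by rw [hB]; exact Finset.filter_subset _ _
  have h1 : A.card < 2 * k := by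
    refine tour_card r A (fun x hx y hy => hr x (hAS hx) y (hAS hy)) k hk fun p hp => ?_
    have hp' := hp
    rw [hA, mem_filter] at hp'
    exact (Finset.card_le_card (Finset.filter_subset_filter _ hAS)).trans_lt hp'.2
  have h2 : B.card < 2 * k := by
    refine tour_card (fun x y => r y x) B (fun x hx y hy hxy => ?_) k hk fun p hp => ?_
    · exact hr y (hBS hy) x (hBS hx) hxy.symm
    · have hp' := hp
      rw [hB, mem_filter] at hp'
      exact (Finset.card_le_card (Finset.filter_subset_filter _ hBS)).trans_lt hp'.2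
  have h3 : S ⊆ A ∪ B := by
    intro p hp
    rw [mem_union, hA, hB, mem_filter, mem_filter]
    by_cases h4 : k ≤ (S.filter fun x => x ≠ p ∧ r x p).card
    · exact Or.inr ⟨hp, hcon p hp h4⟩
    · exact Or.inl ⟨hp, not_le.mp h4⟩
  have h4 := (Finset.card_le_card h3).trans (Finset.card_union_le A B)
  omega

end tournament

section perceptron

variable {V : Type*} [NormedAddCommGroup V] [InnerProductSpace ℝ V]

/-- the perceptron path -/
lemma perc_path {β : Type*} (B : V →ₗ[ℝ] V →ₗ[ℝ] ℝ) (z : β → V) (D δ : ℝ) (hδ : 0 < δ) (t : ℕ) :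
    ∀ (S : Finset β) (w : V) (a : ℝ), 5 ^ t ≤ S.card →
      (∀ x ∈ S, ‖z x‖ ^ 2 ≤ D) →
      (∀ x ∈ S, ∀ y ∈ S, x ≠ y → δ ≤ |B (z x) (z y)|) →
      (∀ x ∈ S, ∀ y ∈ S, B (z x) (z y) = - B (z y) (z x)) →
      (∀ x ∈ S, a ≤ B (z x) w) →
      ∃ x ∈ S, ∃ w' : V, a + t * δ ≤ B (z x) w' ∧ ‖w'‖ ^ 2 ≤ ‖w‖ ^ 2 + t * D := by
  induction t with
  | zero =>
    intro S w a hS _ _ _ ha
    have hne : S.Nonempty := by
      rw [← Finset.card_pos]
      simpa using hS
    obtain ⟨x, hx⟩ := hne
    exact ⟨x, hx, w, by simpa using ha x hx, by simp⟩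
  | succ t ih =>
    intro S w a hS hD hm hanti ha
    obtain ⟨p, hp, h1, h2⟩ := exists_pivot (fun x y => 0 < B (z x) (z y)) S
      (fun x hx y hy hxy => by
        have e1 := hanti x hx y hy
        have e2 := hm x hx y hy hxy
        constructor
        · intro h3 h4
          linarith
        · intro h3
          by_contra h4
          have h5 : B (z x) (z y) = 0 := by linarith
          rw [h5, abs_zero] at e2
          linarith) (5 ^ t) (Nat.one_le_pow _ _ (by norm_num)) (by
        rw [pow_succ] at hS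
        have : 1 ≤ 5 ^ t := Nat.one_le_pow _ _ (by norm_num)
        omega)
    -- the margin
    have hpos : ∀ x ∈ S, ∀ y ∈ S, x ≠ y → 0 < B (z x) (z y) → δ ≤ B (z x) (z y) := by
      intro x hx y hy hxy h3
      have := hm x hx y hy hxy
      rwa [abs_of_pos h3] at this
    rcases le_total (inner ℝ w (z p)) 0 with hin | hin
    · obtain ⟨x, hx, w', hw1, hw2⟩ := ih (S.filter fun x => x ≠ p ∧ 0 < B (z x) (z p)) (w + z p)
        (a + δ) h1 (fun x hx => hD x (Finset.mem_filter.mp hx).1)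
        (fun x hx y hy => hm x (Finset.mem_filter.mp hx).1 y (Finset.mem_filter.mp hy).1)
        (fun x hx y hy => hanti x (Finset.mem_filter.mp hx).1 y (Finset.mem_filter.mp hy).1)
        (fun x hx => by
          obtain ⟨hxS, hxp, hx0⟩ := Finset.mem_filter.mp hx
          rw [map_add]
          exact add_le_add (ha x hxS) (hpos x hxS p hp hxp hx0))
      refine ⟨x, (Finset.mem_filter.mp hx).1, w', ?_, ?_⟩
      · push_cast
        linarith
      · have h3 : ‖w + z p‖ ^ 2 ≤ ‖w‖ ^ 2 + D := by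
          rw [norm_add_sq_real]
          have := hD p hp
          linarith
        push_cast
        linarith
    · obtain ⟨x, hx, w', hw1, hw2⟩ := ih (S.filter fun x => x ≠ p ∧ 0 < B (z p) (z x)) (w - z p)
        (a + δ) h2 (fun x hx => hD x (Finset.mem_filter.mp hx).1)
        (fun x hx y hy => hm x (Finset.mem_filter.mp hx).1 y (Finset.mem_filter.mp hy).1)
        (fun x hx y hy => hanti x (Finset.mem_filter.mp hx).1 y (Finset.mem_filter.mp hy).1)
        (fun x hx => by
          obtain ⟨hxS, hxp, hx0⟩ := Finset.mem_filter.mp hx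
          rw [map_sub, hanti x hxS p hp]
          have h3 := hpos p hp x hxS hxp.symm hx0
          have h4 := ha x hxS
          linarith)
      refine ⟨x, (Finset.mem_filter.mp hx).1, w', ?_, ?_⟩
      · push_cast
        linarith
      · have h3 : ‖w - z p‖ ^ 2 ≤ ‖w‖ ^ 2 + D := by
          rw [norm_sub_sq_real]
          have := hD p hp
          linarith
        push_cast
        linarith

/-- tournaments with a margin are small -/
theorem perc {β : Type*} (B : V →ₗ[ℝ] V →ₗ[ℝ] ℝ) (hB : ∀ v w, |B v w| ≤ ‖v‖ * ‖w‖)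
    (z : β → V) (D δ : ℝ) (hδ : 0 < δ) (t : ℕ) (S : Finset β) (hS : 5 ^ t ≤ S.card)
    (hD : ∀ x ∈ S, ‖z x‖ ^ 2 ≤ D)
    (hm : ∀ x ∈ S, ∀ y ∈ S, x ≠ y → δ ≤ |B (z x) (z y)|)
    (hanti : ∀ x ∈ S, ∀ y ∈ S, B (z x) (z y) = - B (z y) (z x)) :
    t * δ ^ 2 ≤ D ^ 2 := by
  obtain ⟨x, hx, w', h1, h2⟩ := perc_path B z D δ hδ t S 0 0 hS hD hm hanti (fun x _ => by simp)
  rw [norm_zero] at h2
  have h3 : (t * δ) ^ 2 ≤ ‖z x‖ ^ 2 * ‖w'‖ ^ 2 := by
    rw [← mul_pow]
    refine pow_le_pow_left₀ (by positivity) ?_ 2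
    calc t * δ ≤ B (z x) w' := by linarith
      _ ≤ |B (z x) w'| := le_abs_self _
      _ ≤ _ := hB _ _
  have h4 : ‖z x‖ ^ 2 * ‖w'‖ ^ 2 ≤ D * (t * D) := by
    have h5 := hD x hx
    have h6 : ‖w'‖ ^ 2 ≤ t * D := by linarith
    have h7 : 0 ≤ D := (sq_nonneg _).trans h5
    exact mul_le_mul h5 h6 (sq_nonneg _) h7
  rcases Nat.eq_zero_or_pos t with ht | ht
  · subst ht
    simp only [Nat.cast_zero, zero_mul]
    exact sq_nonneg D
  · have ht' : (0 : ℝ) < t := by exact_mod_cast ht
    have h5 : t * (t * δ ^ 2) ≤ t * D ^ 2 := by nlinarith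
    exact le_of_mul_le_mul_left h5 ht'

end perceptron

section info

variable {Ω β : Type*} [Fintype Ω]

/-- the number of random variables with values in `{0, …, 2^J - 1}` all pairs of which are
unbalanced -/
theorem info2 [Nonempty Ω] {J : ℕ} (hJ : 1 ≤ J) {c : β → Ω → ℕ} {δ : ℝ} (hδ : 0 < δ) (hδ1 : δ ≤ 1)
    {S : Finset β} (hc : ∀ x ω, c x ω < 2 ^ J)
    (hS : ∀ x ∈ S, ∀ y ∈ S, x ≠ y → δ * Fintype.card Ω ≤ |BT c x y|) :
    (S.card : ℝ) ≤ Real.exp (4 * J ^ 2 / δ ^ 2) := by
  have hΩ : (0 : ℝ) < Fintype.card Ω := by exact_mod_cast Fintype.card_pos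
  have hJ' : (1 : ℝ) ≤ J := by exact_mod_cast hJ
  rcases S.eq_empty_or_nonempty with hSe | hSe
  · rw [hSe]
    simp only [card_empty, Nat.cast_zero]
    positivity
  have hS1 : 1 ≤ S.card := hSe.card_pos
  obtain ⟨t, ht⟩ : ∃ t, t = Nat.log 5 S.card := ⟨_, rfl⟩
  have ht1 : 5 ^ t ≤ S.card := by
    rw [ht]
    exact Nat.pow_log_le_self 5 (by omega)
  have ht2 : S.card < 5 ^ (t + 1) := by
    rw [ht]
    exact Nat.lt_pow_succ_log_self (by norm_num) _
  have hval : ∀ x y, BB Ω J (vec J (c x)) (vec J (c y)) = BT c x y / Fintype.card Ω := fun x y =>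
    BB_vec J _ _ (hc x) (hc y)
  have h1 := perc (BB Ω J) (BB_le J) (fun x => vec J (c x)) J δ hδ t S ht1
    (fun x _ => (norm_vec J (c x) (hc x)).le)
    (fun x hx y hy hxy => by
      rw [hval, abs_div, abs_of_pos hΩ, le_div_iff₀ hΩ]
      exact hS x hx y hy hxy)
    (fun x _ y _ => by
      rw [hval, hval, BT_anti, neg_div])
  have h2 : (t : ℝ) ≤ J ^ 2 / δ ^ 2 := by
    rw [le_div_iff₀ (by positivity)]
    exact h1
  have h3 : 1 ≤ J ^ 2 / δ ^ 2 := by
    rw [le_div_iff₀ (by positivity), one_mul]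
    exact (pow_le_one₀ hδ.le hδ1).trans (one_le_pow₀ hJ')
  have h4 : (S.card : ℝ) ≤ 5 ^ (t + 1) := by exact_mod_cast ht2.le
  refine h4.trans ?_
  have h5 : (5 : ℝ) ≤ Real.exp 2 := by
    have e1 : Real.exp 2 = Real.exp 1 * Real.exp 1 := by rw [← Real.exp_add]; norm_num
    rw [e1]
    have := Real.exp_one_gt_d9
    nlinarith
  calc (5 : ℝ) ^ (t + 1) ≤ Real.exp 2 ^ (t + 1) := pow_le_pow_left₀ (by norm_num) h5 _
    _ = Real.exp (((t + 1 : ℕ) : ℝ) * 2) := by rw [← Real.exp_nat_mul]
    _ ≤ Real.exp (4 * J ^ 2 / δ ^ 2) := by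
      refine Real.exp_le_exp.mpr ?_
      push_cast
      have : 4 * (J : ℝ) ^ 2 / δ ^ 2 = 4 * (J ^ 2 / δ ^ 2) := by ring
      rw [this]
      linarith

end info

end Pool.Agent.J4H56.KS
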