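import Mathlib

/-!
# The parameters of the final step, with bounds
-/

set_option autoImplicit false

namespace Pool.Agent.J4H56.KS

/-- the conditions on the parameters -/
structure Par (c C C' c' CD ε L₁ η L N K₀ : ℝ) : Prop where
  η0 : 0 < η
  η1 : η < 1
  L1 : 1 ≤ L
  LL : L₁ ≤ L
  N1 : 1 ≤ N
  K1 : 1 ≤ K₀
  p1 : Real.exp (CD * Real.log (5 * C * L / (η * ε)) ^ 2 / ε ^ 2) ≤ N
  p2 : 544 * C * L * Real.exp (-(1 / (23040 * √η))) ≤ 1 / (128 * N ^ 2)
  p3 : 16 * C' * L * Real.exp (-(c' * L)) ≤ 1 / (64 * N)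
  p4 : 17 * N * Real.exp (-(K₀ / 18)) ≤ 1 / 16
  p5 : (300 / c + 1) * √(3 * K₀ * √η) < ε

/-- the parameters for a given large number `u` -/
theorem par_u {c C C' c' CD ε L₁ u : ℝ} (hc : 0 < c) (hC : 1 ≤ C) (hC' : 1 ≤ C') (hc' : 0 < c')
    (hCD : 1 ≤ CD) (hε : 0 < ε) (hε2 : ε ≤ 1 / 2)
    (hu1 : Real.log u ^ 2 ≤ (ε ^ 2 / (121 * CD)) * u) (u300 : 300 ≤ u) (uK : 5 * C / ε ≤ u)
    (uL : L₁ ≤ u) (uC : 417792 * C ≤ u) (uC' : 6144 * C' ≤ u) (u6 : 69120 ≤ u)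
    (uc' : 2 / c' ≤ u) (uδ : 109 * (300 / c + 1) ^ 2 / ε ^ 2 ≤ u) :
    ∃ F : ℝ, 0 ≤ F ∧ F ≤ CD * (11 * Real.log u) ^ 2 / ε ^ 2 ∧
      Par c C C' c' CD ε L₁ (1 / u ^ 8) (u ^ 2) (Real.exp F) (18 * Real.log (272 * Real.exp F)) := by
  have hC0 : 0 < C := by linarith
  have hC'0 : 0 < C' := by linarith
  have hCD0 : 0 < CD := by linarith
  obtain ⟨δ, hδ⟩ : ∃ δ : ℝ, δ = ε / (300 / c + 1) := ⟨_, rfl⟩
  have hk0 : 0 < 300 / c + 1 := by positivity
  have hδ0 : 0 < δ := by rw [hδ]; positivity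
  have u0 : 0 < u := by linarith
  have u1 : 1 ≤ u := by linarith
  have uδ : 109 / δ ^ 2 ≤ u := by
    refine le_trans (le_of_eq ?_) uδ
    rw [hδ]
    field_simp
  have hlog0 : 0 ≤ Real.log u := Real.log_nonneg u1
  -- the exponent
  have hη : (0 : ℝ) < 1 / u ^ 8 := by positivity
  have harg : 5 * C * u ^ 2 / (1 / u ^ 8 * ε) = 5 * C / ε * u ^ 10 := by
    field_simp
  have hK1 : 1 ≤ 5 * C / ε := by
    rw [le_div_iff₀ hε]
    linarith
  have hl1 : 0 ≤ Real.log (5 * C * u ^ 2 / (1 / u ^ 8 * ε)) := by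
    rw [harg]
    exact Real.log_nonneg (one_le_mul_of_one_le_of_one_le hK1 (one_le_pow₀ u1))
  have hl2 : Real.log (5 * C * u ^ 2 / (1 / u ^ 8 * ε)) ≤ 11 * Real.log u := by
    rw [harg]
    calc Real.log (5 * C / ε * u ^ 10) ≤ Real.log (u * u ^ 10) :=
          Real.log_le_log (by positivity) (mul_le_mul_of_nonneg_right uK (by positivity))
      _ = Real.log (u ^ 11) := by congr 1; ring
      _ = 11 * Real.log u := by rw [Real.log_pow]; norm_num
  obtain ⟨F, hF⟩ : ∃ F : ℝ, F = CD * Real.log (5 * C * u ^ 2 / (1 / u ^ 8 * ε)) ^ 2 / ε ^ 2 :=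
    ⟨_, rfl⟩
  have hF0 : 0 ≤ F := by rw [hF]; positivity
  have h2 : Real.log (5 * C * u ^ 2 / (1 / u ^ 8 * ε)) ^ 2 ≤ (11 * Real.log u) ^ 2 :=
      pow_le_pow_left₀ hl1 hl2 2
  have hFu : F ≤ u := by
    rw [hF, div_le_iff₀ (by positivity)]
    calc CD * Real.log (5 * C * u ^ 2 / (1 / u ^ 8 * ε)) ^ 2 ≤ CD * (11 * Real.log u) ^ 2 :=
          mul_le_mul_of_nonneg_left h2 hCD0.le
      _ = 121 * CD * Real.log u ^ 2 := by ring
      _ ≤ 121 * CD * ((ε ^ 2 / (121 * CD)) * u) :=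
          mul_le_mul_of_nonneg_left hu1 (by positivity)
      _ = u * ε ^ 2 := by field_simp
  have hsq : √(1 / u ^ 8) = 1 / u ^ 4 := by
    rw [Real.sqrt_eq_iff_mul_self_eq (by positivity) (by positivity)]
    field_simp
  have hexp : u ^ 3 / 6 ≤ Real.exp u := by
    have := Real.pow_div_factorial_le_exp u u0.le 3
    norm_num [Nat.factorial] at this
    linarith
  refine ⟨F, hF0, ?_, hη, ?_, one_le_pow₀ u1, ?_, Real.one_le_exp hF0, ?_, ?_, ?_, ?_, ?_, ?_⟩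
  · rw [hF]
    exact div_le_div_of_nonneg_right (mul_le_mul_of_nonneg_left h2 hCD0.le) (by positivity)
  · rw [div_lt_one (by positivity)]
    exact one_lt_pow₀ (by linarith) (by norm_num)
  · nlinarith
  · rw [Real.log_mul (by norm_num) (Real.exp_pos _).ne', Real.log_exp]
    have : Real.log 2 ≤ Real.log 272 := Real.log_le_log (by norm_num) (by norm_num)
    have := Real.log_two_gt_d9
    linarith
  · rw [← hF]
  · -- 544 C L exp(-1/(23040 √η)) ≤ 1/(128 N²)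
    rw [hsq, le_div_iff₀ (by positivity)]
    have h2 : 69632 * C * u ^ 2 ≤ Real.exp u := by
      refine le_trans ?_ hexp
      rw [le_div_iff₀ (by norm_num)]
      calc 69632 * C * u ^ 2 * 6 = (417792 * C) * u ^ 2 := by ring
        _ ≤ u * u ^ 2 := mul_le_mul_of_nonneg_right uC (by positivity)
        _ = u ^ 3 := by ring
    have h3 : 3 * u ≤ 1 / (23040 * (1 / u ^ 4)) := by
      have : 1 / (23040 * (1 / u ^ 4)) = u ^ 4 / 23040 := by field_simp
      rw [this, le_div_iff₀ (by norm_num)]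
      calc 3 * u * 23040 = 69120 * u := by ring
        _ ≤ u * u := mul_le_mul_of_nonneg_right u6 u0.le
        _ = u ^ 2 := by ring
        _ ≤ u ^ 4 := pow_le_pow_right₀ u1 (by norm_num)
    calc 544 * C * u ^ 2 * Real.exp (-(1 / (23040 * (1 / u ^ 4)))) * (128 * Real.exp F ^ 2)
        = (69632 * C * u ^ 2) * Real.exp (-(1 / (23040 * (1 / u ^ 4)))) * Real.exp F ^ 2 := by ring
      _ ≤ Real.exp u * Real.exp (-(3 * u)) * Real.exp u ^ 2 := by gcongr
      _ = 1 := by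
          rw [← Real.exp_nat_mul, ← Real.exp_add, ← Real.exp_add]
          rw [Real.exp_eq_one_iff]
          push_cast
          ring
  · rw [le_div_iff₀ (by positivity)]
    have h2 : 1024 * C' * u ^ 2 ≤ Real.exp u := by
      refine le_trans ?_ hexp
      rw [le_div_iff₀ (by norm_num)]
      calc 1024 * C' * u ^ 2 * 6 = (6144 * C') * u ^ 2 := by ring
        _ ≤ u * u ^ 2 := mul_le_mul_of_nonneg_right uC' (by positivity)
        _ = u ^ 3 := by ring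
    have h3 : 2 * u ≤ c' * u ^ 2 := by
      rw [div_le_iff₀ hc'] at uc'
      nlinarith
    calc 16 * C' * u ^ 2 * Real.exp (-(c' * u ^ 2)) * (64 * Real.exp F)
        = (1024 * C' * u ^ 2) * Real.exp (-(c' * u ^ 2)) * Real.exp F := by ring
      _ ≤ Real.exp u * Real.exp (-(2 * u)) * Real.exp u := by gcongr
      _ = 1 := by
          rw [← Real.exp_add, ← Real.exp_add]
          rw [Real.exp_eq_one_iff]
          ring
  · have h2 : -(18 * Real.log (272 * Real.exp F) / 18) = -Real.log (272 * Real.exp F) := by ring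
    rw [h2, Real.exp_neg, Real.exp_log (by positivity)]
    have : 0 < Real.exp F := Real.exp_pos F
    field_simp
    norm_num
  · rw [hsq, Real.log_mul (by norm_num) (Real.exp_pos _).ne', Real.log_exp]
    have h272 : Real.log 272 ≤ u := by
      have := Real.log_le_sub_one_of_pos (show (0 : ℝ) < 272 by norm_num)
      linarith
    have h2 : 3 * (18 * (Real.log 272 + F)) * (1 / u ^ 4) ≤ 108 / u := by
      rw [mul_one_div, div_le_div_iff₀ (by positivity) u0]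
      have h3 : u * u ≤ u ^ 4 := by
        calc u * u = u ^ 2 := by ring
          _ ≤ u ^ 4 := pow_le_pow_right₀ u1 (by norm_num)
      calc 3 * (18 * (Real.log 272 + F)) * u ≤ 3 * (18 * (u + u)) * u := by gcongr
        _ = 108 * (u * u) := by ring
        _ ≤ 108 * u ^ 4 := by linarith
    have h3 : 108 / u < δ ^ 2 := by
      rw [div_lt_iff₀ u0]
      rw [div_le_iff₀ (by positivity)] at uδ
      nlinarith
    have h4 : √(3 * (18 * (Real.log 272 + F)) * (1 / u ^ 4)) < δ := by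
      rw [Real.sqrt_lt' hδ0]
      exact h2.trans_lt h3
    calc (300 / c + 1) * √(3 * (18 * (Real.log 272 + F)) * (1 / u ^ 4)) < (300 / c + 1) * δ :=
          mul_lt_mul_of_pos_left h4 hk0
      _ = ε := by rw [hδ]; field_simp

lemma log_two_div_ge {ε : ℝ} (hε : 0 < ε) (hε2 : ε ≤ 1 / 2) : 1 ≤ Real.log (2 / ε) := by
  have h1 : (4 : ℝ) ≤ 2 / ε := by
    rw [le_div_iff₀ hε]
    linarith
  have h2 : Real.log 4 ≤ Real.log (2 / ε) := Real.log_le_log (by norm_num) h1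
  have h3 : Real.log 4 = 2 * Real.log 2 := by
    have : (4 : ℝ) = 2 ^ 2 := by norm_num
    rw [this, Real.log_pow]
    norm_num
  have := Real.log_two_gt_d9
  linarith

/-- the parameters: everything is at most `exp (B log (2/ε)² / ε²)` -/
theorem par_bound {c C C' c' CD L₁ : ℝ} (hc : 0 < c) (hC : 1 ≤ C) (hC' : 1 ≤ C') (hc' : 0 < c')
    (hCD : 1 ≤ CD) : ∃ B : ℝ, 1 ≤ B ∧ ∀ ε : ℝ, 0 < ε → ε ≤ 1 / 2 →
      ∃ u F : ℝ, 69120 ≤ u ∧ 0 ≤ F ∧ CD / ε ^ 2 ≤ u ^ 3 ∧ 2 / c ≤ u ∧ L₁ ≤ u ∧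
        u ^ 13 * Real.exp F ^ 3 ≤ Real.exp (B * Real.log (2 / ε) ^ 2 / ε ^ 2) ∧
        Par c C C' c' CD ε L₁ (1 / u ^ 8) (u ^ 2) (Real.exp F)
          (18 * Real.log (272 * Real.exp F)) := by
  have hC0 : 0 < C := by linarith
  have hC'0 : 0 < C' := by linarith
  have hCD0 : 0 < CD := by linarith
  obtain ⟨a, ha⟩ : ∃ a : ℝ, a = 300 + 5 * C + |L₁| + 417792 * C + 6144 * C' + 69120 + 2 / c' +
    109 * (300 / c + 1) ^ 2 + 998250 * CD + 2 / c := ⟨_, rfl⟩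
  have e2 : 0 ≤ |L₁| := abs_nonneg _
  have e3 : 0 ≤ 2 / c' := by positivity
  have e4 : 0 ≤ 109 * (300 / c + 1) ^ 2 := by positivity
  have e5 : 0 ≤ 2 / c := by positivity
  have a1 : 1 ≤ a := by linarith
  have a0 : 0 < a := by linarith
  have hla : 0 ≤ Real.log a := Real.log_nonneg a1
  obtain ⟨G, hG⟩ : ∃ G : ℝ, G = 5 * (Real.log a + 1) := ⟨_, rfl⟩
  have hG5 : 5 ≤ G := by linarith
  refine ⟨13 * G + 3 * (CD * (11 * G) ^ 2), by
    have : 0 ≤ 3 * (CD * (11 * G) ^ 2) := by positivity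
    linarith, fun ε hε hε2 => ?_⟩
  have hℓ1 := log_two_div_ge hε hε2
  obtain ⟨ℓ, hℓ⟩ : ∃ ℓ : ℝ, ℓ = Real.log (2 / ε) := ⟨_, rfl⟩
  rw [← hℓ] at hℓ1 ⊢
  obtain ⟨z, hz⟩ : ∃ z : ℝ, z = a / ε := ⟨_, rfl⟩
  have hε1 : ε ≤ 1 := by linarith
  have haz : a ≤ z := by
    rw [hz, le_div_iff₀ hε]
    nlinarith
  have hz1 : 1 ≤ z := by linarith
  have hz0 : 0 < z := by linarith
  have hzε : 1 / ε ≤ z := by
    rw [hz]
    exact div_le_div_of_nonneg_right a1 hε.le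
  have hzu : z ≤ z ^ 5 := le_self_pow₀ hz1 (by norm_num)
  have hlz : Real.log z ≤ Real.log a + ℓ := by
    rw [hz, Real.log_div a0.ne' hε.ne', hℓ, Real.log_div (by norm_num) hε.ne']
    have := Real.log_two_gt_d9
    linarith
  have hlz0 : 0 ≤ Real.log z := Real.log_nonneg hz1
  have hlu : Real.log (z ^ 5) ≤ G * ℓ := by
    rw [Real.log_pow, hG]
    push_cast
    nlinarith
  have hlu0 : 0 ≤ Real.log (z ^ 5) := Real.log_nonneg (one_le_pow₀ hz1)
  have hu1 : Real.log (z ^ 5) ^ 2 ≤ (ε ^ 2 / (121 * CD)) * z ^ 5 := by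
    have h1 : Real.log z ^ 2 ≤ 2 * z := by
      have := Real.pow_div_factorial_le_exp (Real.log z) hlz0 2
      rw [Real.exp_log hz0] at this
      norm_num [Nat.factorial] at this
      linarith
    have h2 : ε * z = a := by rw [hz]; field_simp
    have h3 : (ε ^ 2 / (121 * CD)) * z ^ 5 = a ^ 2 * z ^ 3 / (121 * CD) := by
      rw [← h2]
      ring
    rw [h3, Real.log_pow, le_div_iff₀ (by positivity)]
    push_cast
    have h4 : 6050 * CD ≤ a ^ 2 := by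
      have h5 : 6050 * CD ≤ a := by linarith
      exact h5.trans (le_self_pow₀ a1 (by norm_num))
    have hz3 : z ≤ z ^ 3 := le_self_pow₀ hz1 (by norm_num)
    calc (5 * Real.log z) ^ 2 * (121 * CD) = 3025 * CD * Real.log z ^ 2 := by ring
      _ ≤ 3025 * CD * (2 * z) := mul_le_mul_of_nonneg_left h1 (by positivity)
      _ = 6050 * CD * z := by ring
      _ ≤ a ^ 2 * z := mul_le_mul_of_nonneg_right h4 hz0.le
      _ ≤ a ^ 2 * z ^ 3 := mul_le_mul_of_nonneg_left hz3 (by positivity)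
  have hzε2 : 1 / ε ^ 2 ≤ z ^ 2 := by
    have h1 : 1 / ε ^ 2 = (1 / ε) ^ 2 := by rw [one_div_pow]
    rw [h1]
    exact pow_le_pow_left₀ (by positivity) hzε 2
  have hbig : ∀ b : ℝ, 0 ≤ b → b ≤ a → b / ε ^ 2 ≤ z ^ 3 := by
    intro b hb hba
    calc b / ε ^ 2 = b * (1 / ε ^ 2) := by ring
      _ ≤ z * z ^ 2 := mul_le_mul (hba.trans haz) hzε2 (by positivity) hz0.le
      _ = z ^ 3 := by ring
  have hz35 : z ^ 3 ≤ z ^ 5 := pow_le_pow_right₀ hz1 (by norm_num)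
  obtain ⟨F, hF0, hF, hP⟩ := par_u (c := c) (C := C) (C' := C') (c' := c') (CD := CD) (ε := ε)
    (L₁ := L₁) (u := z ^ 5) hc hC hC' hc' hCD hε hε2 hu1 (by linarith) (by
      have h1 : 5 * C / ε ≤ 5 * C / ε ^ 2 := by
        refine div_le_div_of_nonneg_left (by positivity) (by positivity) ?_
        nlinarith
      exact h1.trans ((hbig _ (by positivity) (by linarith)).trans hz35))
    (by have := le_abs_self L₁; linarith) (by linarith) (by linarith) (by linarith) (by linarith)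
    ((hbig _ e4 (by linarith)).trans hz35)
  have hz53 : z ^ 3 ≤ (z ^ 5) ^ 3 := by
    rw [← pow_mul]
    exact pow_le_pow_right₀ hz1 (by norm_num)
  refine ⟨z ^ 5, F, by linarith, hF0, (hbig CD hCD0.le (by linarith)).trans hz53, by linarith,
    by have := le_abs_self L₁; linarith, ?_, hP⟩
  have hE : 1 ≤ 1 / ε ^ 2 := by
    rw [le_div_iff₀ (by positivity), one_mul]
    exact pow_le_one₀ hε.le hε1
  have h1 : (z ^ 5) ^ 13 ≤ Real.exp (13 * G * ℓ ^ 2 / ε ^ 2) := by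
    have h2 : (z ^ 5) ^ 13 = Real.exp (13 * Real.log (z ^ 5)) := by
      rw [mul_comm, Real.exp_mul, Real.exp_log (by positivity)]
      exact_mod_cast rfl
    rw [h2]
    refine Real.exp_le_exp.mpr ?_
    have h3 : ℓ ≤ ℓ ^ 2 := le_self_pow₀ hℓ1 (by norm_num)
    have h4 : G * ℓ ≤ G * ℓ ^ 2 := mul_le_mul_of_nonneg_left h3 (by linarith)
    have h5 : 0 ≤ G * ℓ ^ 2 := by positivity
    have h6 : G * ℓ ^ 2 * 1 ≤ G * ℓ ^ 2 * (1 / ε ^ 2) := mul_le_mul_of_nonneg_left hE h5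
    have h7 : 13 * G * ℓ ^ 2 / ε ^ 2 = 13 * (G * ℓ ^ 2 * (1 / ε ^ 2)) := by ring
    rw [h7]
    linarith
  have h2 : Real.exp F ^ 3 ≤ Real.exp (3 * (CD * (11 * G) ^ 2) * ℓ ^ 2 / ε ^ 2) := by
    rw [← Real.exp_nat_mul]
    refine Real.exp_le_exp.mpr ?_
    have h3 : CD * (11 * Real.log (z ^ 5)) ^ 2 / ε ^ 2 ≤ CD * (11 * (G * ℓ)) ^ 2 / ε ^ 2 := by
      gcongr
    have h4 : CD * (11 * (G * ℓ)) ^ 2 / ε ^ 2 = CD * (11 * G) ^ 2 * ℓ ^ 2 / ε ^ 2 := by ring
    have h5 : 3 * (CD * (11 * G) ^ 2) * ℓ ^ 2 / ε ^ 2 = 3 * (CD * (11 * G) ^ 2 * ℓ ^ 2 / ε ^ 2) := by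
      ring
    rw [h5]
    push_cast
    linarith
  calc (z ^ 5) ^ 13 * Real.exp F ^ 3 ≤ Real.exp (13 * G * ℓ ^ 2 / ε ^ 2) *
        Real.exp (3 * (CD * (11 * G) ^ 2) * ℓ ^ 2 / ε ^ 2) :=
        mul_le_mul h1 h2 (by positivity) (by positivity)
    _ = Real.exp ((13 * G + 3 * (CD * (11 * G) ^ 2)) * ℓ ^ 2 / ε ^ 2) := by
        rw [← Real.exp_add]
        congr 1
        ring

end Pool.Agent.J4H56.KS
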